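import Pool.Agent.Run7.h528.MB.SaFull

/-!
Semiampleness of nef divisors on varieties with an abelian group of automorphisms of rank
`ρ - k` and `k` invariant blocks of divisor classes.
-/

set_option autoImplicit false

open FF Pool.Agent.W602.GT Pool.Agent.Y172 Pool.Agent.R887 Pool.Agent.N110 Pool.Agent.N110.CC
open Run7.h528.MB

/-- Let `X` be a normal projective variety of dimension `n ≥ 1`, with generic point `y`. Let the
vectors `c P` be the classes of the prime divisors in `N¹(X) = ℤ ^ ρ` (if `X` is `ℚ`-factorial, for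
instance smooth, then `ρ` is the Picard number of `X`). Let `ℤ ^ r`, `r ≥ 1`, act on `X` by
automorphisms `f_v`, given by the automorphisms `φ v = f_v^*` of the function field, and suppose
that `f_v` has positive entropy (the first dynamical degree is greater than `1`) for all `v ≠ 0`.
Suppose that `N¹(X)` contains with finite index a direct sum `Λ_1 ⊕ … ⊕ Λ_k` of groups of rank at
least `2` such that `f_v^*` maps each `Λ_i` into itself, and that `r = ρ - k`. (The classes `u j`
are a basis of the sum, and `u j` is in `Λ_i` for `i = β j`.) The support of a class is the set of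
the `i` such that its component in `Λ_i ⊗ ℝ` is not zero. Let `X` have irregularity zero
(`IrregularityZero`: the group of the divisors modulo linear equivalence, tensored with `ℚ`, is
described by finitely many classes).

Then the canonical divisor of `X` is numerically trivial, and there are nef divisors `e_1, …, e_k`,
the class of `e_i` being a nonzero element of `Λ_i ⊗ ℝ`, such that for every nef divisor `L`, `s`
being the support of its class:

* `L` and the sum of the `e_i`, `i` in `s`, dominate each other: for some `t ≥ 1` the classes of `t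
  L - ∑ e_i` and of `t ∑ e_i - L` are nef;
* `L` is semiample (some `m L`, `m ≥ 1`, is base point free) if and only if this sum is, and
  therefore if the `e_i`, `i` in `s`, are;
* if `s` contains all `i`, then the class of `L` is in the interior of the nef cone (it is ample),
  and `L` is semiample.

So all nef divisors on `X` are semiample if and only if `e_1, …, e_k` are. -/
theorem Pool.Agent.Results.MP_5ee2d0_ag.InvariantBlocks.result
    {K : Type} [Field K] [Algebra ℂ K] {N n r k ρ : ℕ} {y : Fin (N + 1) → K} (hy : NormalModel y)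
    (hn : Algebra.trdeg ℂ K = n) (hn0 : 0 < n) (hr : 0 < r)
    {c : Place ℂ K → Fin ρ → ℤ} (hc : PicardBasis y c)
    (hq : IrregularityZero y)
    {φ : (Fin r → ℤ) → (K ≃ₐ[ℂ] K)} (hφ : ∀ u v, φ (u + v) = φ u * φ v)
    (haut : ∀ v, IsAut (φ v) y) (hent : ∀ v, v ≠ 0 → 1 < dynDegree (φ v) y n 1)
    {u : Fin ρ → Fin ρ → ℤ} (hu : LinearIndependent ℝ (fun j i => (u j i : ℝ)))
    {β : Fin ρ → Fin k} (hβ : ∀ i, ∃ j j', j ≠ j' ∧ β j = i ∧ β j' = i) (hρ : ρ = r + k)
    (hbl : ∀ v, PreservesBlocks y c u β (φ v)) :
    (∀ (x : Fin n → K) (E : Fin n → Derivation ℂ K K) (κ : Place ℂ K → ℤ), Can y x E κ →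
      divClass y c κ = 0) ∧
    ∃ e : Fin k → Place ℂ K → ℤ,
      (∀ i, IsDiv y (e i) ∧ divClass y c (e i) ∈ nefCone y n c ∧
        IsBlockSupport u β (divClass y c (e i)) {i}) ∧
      (∀ L, IsDiv y L → divClass y c L ∈ nefCone y n c →
        ∃ s, IsBlockSupport u β (divClass y c L) s ∧
          (∃ t : ℕ, 1 ≤ t ∧
            (t : ℝ) • divClass y c L - ∑ i ∈ s, divClass y c (e i) ∈ nefCone y n c ∧
            (t : ℝ) • ∑ i ∈ s, divClass y c (e i) - divClass y c L ∈ nefCone y n c) ∧
          (IsSemiample y n L ↔ IsSemiample y n (fun P => ∑ i ∈ s, e i P)) ∧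
          ((∀ i ∈ s, IsSemiample y n (e i)) → IsSemiample y n L) ∧
          (s = Finset.univ → divClass y c L ∈ interior (nefCone y n c) ∧ IsSemiample y n L)) ∧
      ((∀ L, IsDiv y L → divClass y c L ∈ nefCone y n c → IsSemiample y n L) ↔
        ∀ i, IsSemiample y n (e i)) := by
  obtain ⟨e, he, h⟩ := core hy hn hn0 hr hc hφ haut hent hu hβ hρ hbl
  have key : ∀ L, IsDiv y L → divClass y c L ∈ nefCone y n c →
        ∃ s, IsBlockSupport u β (divClass y c L) s ∧
          (∃ t : ℕ, 1 ≤ t ∧
            (t : ℝ) • divClass y c L - ∑ i ∈ s, divClass y c (e i) ∈ nefCone y n c ∧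
            (t : ℝ) • ∑ i ∈ s, divClass y c (e i) - divClass y c L ∈ nefCone y n c) ∧
          (IsSemiample y n L ↔ IsSemiample y n (fun P => ∑ i ∈ s, e i P)) ∧
          ((∀ i ∈ s, IsSemiample y n (e i)) → IsSemiample y n L) ∧
          (s = Finset.univ → divClass y c L ∈ interior (nefCone y n c) ∧ IsSemiample y n L) := by
    intro L hL hLn
    obtain ⟨s, h1, h2, h3, h4, h5, -⟩ := h _ (isRat_divClass hL) hLn
    have hs := divClass_sum (c := c) s fun i => (he i).1
    refine ⟨s, h1, h2, ?_, fun h6 => ?_, fun h6 => ?_⟩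
    · rw [semiample_iff hy hc hq hL, semiample_iff hy hc hq hs.1, hs.2]
      exact h3
    · rw [semiample_iff hy hc hq hL]
      exact h4 fun i hi => (semiample_iff hy hc hq (he i).1).1 (h6 i hi)
    · rw [semiample_iff hy hc hq hL]
      exact h5 h6
  refine ⟨fun x E κ hκ => can_zeroB hy hn hn0 hr hc hφ (fun v => isAut_psM hy (haut v)) hent hu hβ
    hρ hbl hκ, e, he, key, fun h1 i => h1 _ (he i).1 (he i).2.1, fun h1 L hL hLn => ?_⟩
  obtain ⟨s, -, -, -, h2, -⟩ := key L hL hLn
  exact h2 fun i _ => h1 i
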