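import Pool.Agent.Run7.h528.NR.FinalD
import Pool.Agent.Run7.h528.NN.Log
import Pool.Agent.N110.DV.Im

/-!
Nef divisors which are dominated by a divisor whose class is invariant under a nilpotent group of
birational self-maps of large growth rank.
-/

set_option autoImplicit false

open FF Pool.Agent.W602.GT Pool.Agent.Y172 Pool.Agent.R887 Pool.Agent.N110 Pool.Agent.N110.DV
open Run7.h528.NR Run7.h528.NN

/-- Let `X` be a normal projective variety of dimension `n ≥ 1` with generic point `y` (for instance
a manifold with trivial canonical class), and `L` a `ℚ`-divisor on `X`, for instance a nef divisor.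
Let `X' ⇢ X` be a dominant generically finite rational map, given by the homomorphism `π` of the
function fields, which contracts no prime divisors, and `L'` a `ℚ`-divisor on the normal projective
variety `X'` such that `L' - π^* L` is pseudo-effective (for instance let `X' = X` and `L' = L`, or let
the map be the quotient map by a finite group and `L' = π^* L`). Let `f_1, ..., f_r` be birational
self-maps of `X'` which generate a nilpotent group `G` (not necessarily abelian) of isomorphisms in
codimension one (on a variety with terminal singularities and nef canonical class every birational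
self-map is one), and suppose that the elements of `G` preserve the numerical class of `L'` (the
divisors `L' - g^* L'` are pseudo-effective). These maps have nothing to do with the map `X' ⇢ X`.
Let `s ≥ 1` be at most the growth rank: for `v` in `ℤ ^ r` let `D(v)` be the degree
`g_v^* H · H ^ (n - 1)` of the map `g_v` of `X'` with `g_v^* = f_1^* ^ (v_1) ... f_r^* ^ (v_r)` (a
product in this order); `D` grows subexponentially only along linear subspaces of `ℝ ^ r` of
codimension at least `s`. For instance `s = r ≥ 1` if `D(v)` is at least `c exp (δ |v|)` for some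
`c, δ > 0`.

Then `s ≤ n - 1`, the numerical dimension of `L` is at most `n - 1 - s`, and so is the Iitaka
dimension. If the Iitaka dimension is at least `n - 1 - s` then the Iitaka dimension and the numerical
dimension of `L` are equal (if `L` is nef and the canonical class of the manifold `X` is trivial, then
`L` is semiample in this case, by a theorem of Kawamata which is not formalised here). If `s = n - 1`
and `L` is nef, then `L` is numerically trivial, whatever the irregularity of `X` is; more generally,
every pseudo-effective `L` is numerically equivalent to an effective `ℚ`-divisor in this case (the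
hypothesis `NeronSeveri y`, used only for this, is the theorem of Néron and Severi that the group of the
divisors modulo numerical equivalence is finitely generated). If `s = n - 1`, `L` is nef and the
irregularity of `X` is zero, then `L` is torsion: `m L` is the divisor of a rational function for some
`m ≥ 1`; in particular it is semiample. -/
theorem Pool.Agent.Results.MP_5ee2d0_ag.NilpotentDominatedDivisors.result
    {K K' : Type} [Field K] [Algebra ℂ K] [Field K'] [Algebra ℂ K'] {N N' n : ℕ}
    {y : Fin (N + 1) → K} {y' : Fin (N' + 1) → K'} (hy : NormalModel y) (hy' : NormalModel y')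
    (hn : Algebra.trdeg ℂ K = n) (hn' : Algebra.trdeg ℂ K' = n) (hn0 : 0 < n)
    {L : Place ℂ K → ℚ} (hL : {P | IsPrimeDivisor y P ∧ L P ≠ 0}.Finite)
    {L' : Place ℂ K' → ℚ} (hL' : {P | IsPrimeDivisor y' P ∧ L' P ≠ 0}.Finite) {π : K →ₐ[ℂ] K'}
    (hπ : ImgClassLe π y L y' L') {r s : ℕ} (hs : 0 < s) (f : Fin r → (K' ≃ₐ[ℂ] K'))
    (hnil : Group.IsNilpotent (Subgroup.closure (Set.range f)))
    (hiso : ∀ g ∈ Subgroup.closure (Set.range f), PseudoAut g y')
    (hcl : ∀ g ∈ Subgroup.closure (Set.range f), ClassLe g y' L')
    (hrank : GrowthRankGe (nprod f) y' n s ∨ (s = r ∧ ExpGrowth (nprod f) y' n)) :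
    s < n ∧ NuLt y n L (n - s) ∧ ¬ IitakaGe y L (n - s) ∧
      (IitakaGe y L (n - s - 1) → AbundantD y n L) ∧
      (s + 1 = n → NeronSeveri y → (NefD y n L → NumEqD y L 0) ∧
        (CC.PsefD y L → ∃ D : Place ℂ K → ℚ, Effective y D ∧ NumEqD y L D)) ∧
      (s + 1 = n → NefD y n L → IrregularityZero y → ∃ m : ℕ, 1 ≤ m ∧ ∃ g : K, g ≠ 0 ∧
        ∀ P, IsPrimeDivisor y P → (P.ord g : ℚ) = m * L P) := by
  have hrank' : GrowthRankGe (nprod f) y' n s := by
    rcases hrank with h | ⟨rfl, h⟩
    · exact h
    · exact RK.growthRank_of_exp h
  obtain ⟨h1, h2⟩ := nil_mainD hy' hn' hn0 hL' hs f hnil hiso hcl hrank'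
  have key := nuLt_img hy hy' hn hn' hπ (Nat.sub_le n s) h2
  refine ⟨h1, key, iitaka_lt hy hn (Nat.sub_le n s) key, fun h4 => ⟨n - s - 1, h4, ?_⟩, ?_,
    ?_⟩
  · rwa [show n - s - 1 + 1 = n - s by omega]
  · intro h3 hN
    rw [show n - s = 1 by omega] at key
    refine ⟨fun hnef => nefD_trivial hy hn hn0 hN hL hnef key, fun hps => ?_⟩
    obtain ⟨ρ', cl, hcl'⟩ := hN
    obtain ⟨D, hD, hE, -⟩ := num_effD hy hn hn0 hcl' hL hps key
    exact ⟨D, hD, hE⟩
  · intro h3 hnef hq
    rw [show n - s = 1 by omega] at key
    obtain ⟨m, hm, g, hg0, hg⟩ := trivialD hy hn hn0 hL hq hnef key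
    refine ⟨m, hm, g⁻¹, inv_ne_zero hg0, fun P hP => ?_⟩
    have h4 := hg P hP
    rw [P.ord_inv]
    push_cast
    linarith
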