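import Pool.Agent.Results.MP_89a3f8_ag.TerminationOfFlips
import Pool.Agent.Run7.h530.FI.Nef

/-!
# Nef divisors on toroidal covers of products of projective spaces and their images are semiample

Let `F i` be a form of degree `d i` in `n i + 1` variables whose zero set in the projective
`n i`-space is a smooth hypersurface, and let `K` be the function field of an abelian cover `Y` of the
product of the projective `n i`-spaces which is branched along the hypersurfaces `F i = 0` of the
factors: `K` is generated by the affine coordinates and by roots `z j`,
`z j ^ (m j) = ∏ i, (F i (x i) / x i 0 ^ (d i)) ^ (a j i)`. Equivalently, `Y` is a quotient of the product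
of the cyclic hypersurfaces `H i`, `w ^ (d i) = F i`, by a group of diagonal automorphisms. Let `X` be a
toroidal modification of `Y`, given by `fan` (the definitions are those of the starting result
`MP_89a3f8_ag.TerminationOfFlips`).

**The varieties `X_0`.** Let `X_0` be a normal projective variety with a generically finite morphism
`X → X_0`, for instance `X_0 = X` or the quotient of `X` by ANY finite group of automorphisms
(permutations of equal factors, automorphisms of the forms, ...). Its function field `K0` is a subfield
of `K` and `K / K0` is finite. On `X_0` there are `ℚ`-Cartier divisors `D 1, ..., D p`; `δ i P` is the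
coefficient of the pull back of `D i` at the prime divisor `P` over `X_0`. We assume that the pull back
of `D i` to the models of `K` is the sum of a toroidal divisor on `X` and of the divisor of a function
`g i`, that the `D i` are independent (if `∑ i, μ i * D i` and its negative are both linearly equivalent
to effective divisors then `μ = 0`), and that some combination with the coefficients `μ0` is ample.

If all `n i ≥ 3` and `X_0` is `ℚ`-factorial, then the `D i` can be chosen as a basis of
`N¹(X_0) ⊗ ℚ = Pic(X_0) ⊗ ℚ`, since all divisors on `X` are toroidal up to linear equivalence and
multiples (Lefschetz; this remark is not used and not proved here). Then the space `ℝ ^ p` of the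
combinations of the `D i` is `N¹(X_0) ⊗ ℝ`, and a multiple of every divisor on `X_0` is linearly
equivalent to an integral combination of the `D i`.

**Calabi-Yau varieties.** The theorem does not use that `K_{X_0}` is trivial. If `d i = n i + 2` the
`H i` are Calabi-Yau manifolds; for a group `G` of diagonal automorphisms which preserves the volume form
of the product, `Y = (H 1 × ... × H r) / G` has trivial canonical class and canonical singularities,
and its crepant toroidal modifications `X` (the `ℚ`-factorial ones, with terminal singularities, or the
crepant toroidal resolutions, if they exist) have trivial canonical class. This generalizes the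
construction of Borcea and Voisin to products of several factors of any dimensions `n i ≥ 3`; the
irregularity of `X` is `0`. The quotients `X_0 = X / Γ` by finite groups `Γ` which act freely in
codimension one are klt and their canonical classes are torsion.

**Nef divisors.** A combination `L = ∑ i, μ i * D i` is nef if and only if `j * L + A` is ample for all
`j ≥ 1`, `A` being the ample combination with the coefficients `μ0`; this is `IsNef`. The theorem says
that `L` is then semiample, and that there is even one number `k ≥ 1` such that `k * L` is base point free
for ALL nef combinations `L` of the `D i` with integral coefficients. Moreover the real nef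
combinations are the combinations of finitely many base point free divisors with nonnegative real
coefficients. So the answer to the question is yes for the smooth `X_0` with
`K ∼ 0` of this kind, if all `n i ≥ 3`.

**The proof.** The multigraded ring of the sections of the combinations of the toroidal divisors on `X`
is finitely generated (starting tree, `Q57.CX`). The ring of the sections of the combinations of the
`D i` on `X_0` is finitely generated too, since the former ring is integral over it (`fg_desc`). Let
`s b` be finitely many homogeneous generators. A combination `∑ i, μ i * D i` has a section which does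
not vanish at the centre of `P` if and only if `μ` is a sum of degrees of generators `s b` which do not
vanish there. So the cone of the base point free combinations is an intersection of finitely many cones
generated by integral vectors, and closed (Gordan's theorem; `cone_eq`). Nef combinations are limits of
elements of this cone, and the integral vectors in it have multiples without base points. The uniform
multiple exists since the semigroup of the integral vectors in the cone is finitely generated up to
base point free vectors.
-/

set_option autoImplicit false

open FF MvPolynomial Pool.Agent.W602.GT Run7.h530.FI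
open Pool.Agent.Y167 (cone)
open Pool.Agent.Results.MP_89a3f8_ag.TerminationOfFlips (Smooth Admissible InCone IsFan affine
  coefficient)

namespace Pool.Agent.Results.MP_5ee2d0_ag.ToroidalCovers

/-- **Nef divisors are semiample.** Let `X_0` be the image under a generically finite morphism of a
toroidal modification `X` of an abelian cover of a product of projective spaces branched along smooth
hypersurfaces of the factors, and let the `D i` be independent `ℚ`-Cartier divisors on `X_0`, some
combination of which (with the coefficients `μ0`) is ample, whose pull backs to `X` are toroidal up to
linear equivalence. Then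
(1) there is a number `k ≥ 1` such that `k * L` is base point free for every nef combination
`L = ∑ i, μ i * D i`;
(2) the nef cone is generated by the classes of finitely many base point free divisors. -/
theorem result (r N R p : ℕ) (n d : Fin r → ℕ) (hr : 1 ≤ r) (hn : ∀ i, 1 ≤ n i)
    (hd : ∀ i, 1 ≤ d i) (hN : N = ∑ i, n i)
    (F : ∀ i, MvPolynomial (Fin (n i + 1)) ℂ) (hF : ∀ i, (F i).IsHomogeneous (d i))
    (hs : ∀ i, Smooth (F i)) (m : Fin R → ℕ) (hm : ∀ j, 1 ≤ m j) (a : Fin R → Fin r → ℕ)
    (hdiv : ∀ j i, m j ∣ a j i * d i)
    (K : Type) [Field K] [Algebra ℂ K] (x : ∀ i, Fin (n i + 1) → K) (hx0 : ∀ i, x i 0 ≠ 0)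
    (hbas : IsTranscendenceBasis ℂ (affine x)) (z : Fin R → K)
    (hz : ∀ j, z j ^ m j = ∏ i, (aeval (x i) (F i) / x i 0 ^ d i) ^ a j i)
    (hgen : IntermediateField.adjoin ℂ (Set.range (affine x) ∪ Set.range z) = ⊤)
    (fan : Finset (Finset (Fin r → ℕ))) (hfan : IsFan m a fan)
    (c : Fin p → (Fin r → ℕ) → ℚ) (hc0 : ∀ i, c i 0 = 0) (β : Fin p → Fin r → ℤ)
    (u : Finset (Fin r → ℕ) → Fin p → Fin r → ℚ)
    (hlin : ∀ σ ∈ fan, ∀ i v, Admissible m a v → InCone σ v → - c i v = ∑ k, u σ i k * v k)
    (K0 : Type) [Field K0] [Algebra ℂ K0] [Algebra K0 K] [IsScalarTower ℂ K0 K]
    [FiniteDimensional K0 K] (δ : Fin p → Place ℂ K0 → ℚ) (M : ℕ) (hM : 1 ≤ M)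
    (hint : ∀ i P, Divisorial N P → ∃ b : ℤ, (M : ℚ) * δ i P = b)
    (g : Fin p → K) (hg : ∀ i, g i ≠ 0)
    (hδ : ∀ (i : Fin p) (Q : Place ℂ K) (P : Place ℂ K0) (e : ℕ), Over Q P e → Divisorial N Q →
      (e : ℚ) * δ i P = coefficient F d x (c i) (β i) Q + Q.ord (g i))
    (hind : ∀ μ : Fin p → ℤ, IsEff N δ μ → IsEff N δ (-μ) → μ = 0)
    (μ0 : Fin p → ℤ) (hamp : IsAmple N δ μ0) :
    (∃ k : ℕ, 1 ≤ k ∧ ∀ μ : Fin p → ℤ, IsNef N δ μ0 μ → IsFree N δ (k • μ)) ∧
      ∃ S : Finset (Fin p → ℝ), (∀ w ∈ S, ∃ μ : Fin p → ℤ, IsFree N δ μ ∧ w = rc μ) ∧
        nefCone N δ = cone S :=
  nef_free (Run7.h530.FI.fg_desc hg (fun i Q P e h hQ => hδ i Q P e h hQ) hM hint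
    (Pool.Agent.Q57.CX.main_cox (N := N) hr hn hN hd hF hs hx0 hbas hm hdiv hz hgen
      (S := fan) ⟨hfan.adm, hfan.full, hfan.cover⟩ hc0 (u := u) hlin (β := β)
      (δ := fun i P => coefficient F d x (c i) (β i) P) (fun _ _ => rfl))) hind hamp

end Pool.Agent.Results.MP_5ee2d0_ag.ToroidalCovers
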